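import Mathlib

set_option autoImplicit false

/-!
# Strict interlacing of real roots from a positive Wronskian
-/

namespace Pool.Agent.Q281.Interl

open Polynomial

theorem eq_prod_of_roots {m : ℕ} (g : ℝ[X]) (hd : g.natDegree ≤ m)
    (y : Fin m → ℝ) (hy : Function.Injective y) (hr : ∀ i, g.eval (y i) = 0) :
    g = C (g.coeff m) * ∏ i, (X - C (y i)) := by
  have hmon : (∏ i, (X - C (y i))).Monic := monic_prod_of_monic _ _ fun i _ => monic_X_sub_C _
  have hdeg : (∏ i, (X - C (y i))).natDegree = m := by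
    rw [natDegree_prod_of_monic _ _ (fun i _ => monic_X_sub_C _)]
    simp
  have hdiff : g - C (g.coeff m) * ∏ i, (X - C (y i)) = 0 := by
    rcases Nat.eq_zero_or_pos m with rfl | hm
    · have h1 : g.natDegree = 0 := by omega
      rw [Finset.univ_eq_empty, Finset.prod_empty, mul_one, sub_eq_zero]
      exact eq_C_of_natDegree_eq_zero h1
    · refine eq_zero_of_natDegree_lt_card_of_eval_eq_zero _ hy (fun i => ?_) ?_
      · rw [eval_sub, hr i, eval_mul, eval_prod, Finset.prod_eq_zero (Finset.mem_univ i) (by simp)]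
        simp
      · rw [Fintype.card_fin]
        have h1 : (g - C (g.coeff m) * ∏ i, (X - C (y i))).natDegree ≤ m := by
          refine (natDegree_sub_le _ _).trans (max_le hd ?_)
          refine (natDegree_C_mul_le _ _).trans hdeg.le
        have h2 : (g - C (g.coeff m) * ∏ i, (X - C (y i))).coeff m = 0 := by
          rw [coeff_sub, coeff_C_mul]
          have : (∏ i, (X - C (y i))).coeff m = 1 := by
            have h3 := hmon.coeff_natDegree
            rwa [hdeg] at h3
          rw [this, mul_one, sub_self]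
        refine lt_of_le_of_ne h1 fun h3 => ?_
        have h4 : (g - C (g.coeff m) * ∏ i, (X - C (y i))).leadingCoeff = 0 := by
          rw [leadingCoeff, h3, h2]
        rw [leadingCoeff_eq_zero] at h4
        rw [h4, natDegree_zero] at h3
        omega
  exact sub_eq_zero.1 hdiff

theorem root_between (g : ℝ[X]) (k : ℕ) {p q : ℝ} (hqp : q < p) (hp : 0 < (-1) ^ k * g.eval p)
    (hq : 0 < (-1) ^ (k + 1) * g.eval q) : ∃ y, q < y ∧ y < p ∧ g.eval y = 0 := by
  have hc : ContinuousOn (fun t => (-1 : ℝ) ^ k * g.eval t) (Set.Icc q p) :=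
    (continuous_const.mul g.continuous).continuousOn
  have h1 : (-1 : ℝ) ^ k * g.eval q < 0 := by
    rw [pow_succ] at hq; linarith
  obtain ⟨y, hy, hy2⟩ := intermediate_value_Ioo hqp.le hc (Set.mem_Ioo.2 ⟨h1, hp⟩)
  refine ⟨y, hy.1, hy.2, ?_⟩
  simp only at hy2
  rcases mul_eq_zero.1 hy2 with h | h
  · exact absurd h (pow_ne_zero _ (by norm_num))
  · exact h

theorem exists_neg (g : ℝ[X]) (m : ℕ) (hd : g.natDegree ≤ m + 1) (hg : 0 < g.coeff (m + 1))
    (c : ℝ) : ∃ b < c, 0 < (-1) ^ (m + 1) * g.eval b := by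
  set P := C ((-1 : ℝ) ^ (m + 1)) * g.comp (-X) with hP
  have hnd : g.natDegree = m + 1 := le_antisymm hd (le_natDegree_of_ne_zero hg.ne')
  have hlc : g.leadingCoeff = g.coeff (m + 1) := by rw [leadingCoeff, hnd]
  have hne : ((-1 : ℝ) ^ (m + 1)) ≠ 0 := pow_ne_zero _ (by norm_num)
  have hX : (-X : ℝ[X]).natDegree = 1 := by rw [natDegree_neg, natDegree_X]
  have hPd : P.natDegree = m + 1 := by
    rw [hP, natDegree_C_mul hne, natDegree_comp, hX, hnd, mul_one]
  have hPl : P.leadingCoeff = g.coeff (m + 1) := by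
    rw [hP, leadingCoeff_mul, leadingCoeff_C, leadingCoeff_comp (by rw [hX]; norm_num), hlc, hnd,
      leadingCoeff_neg, leadingCoeff_X]
    have : ((-1 : ℝ) ^ (m + 1)) * (-1) ^ (m + 1) = 1 := by
      rw [← mul_pow]; norm_num
    linear_combination g.coeff (m + 1) * this
  have ht := P.tendsto_atTop_of_leadingCoeff_nonneg
    (natDegree_pos_iff_degree_pos.1 (by rw [hPd]; omega)) (by rw [hPl]; exact hg.le)
  obtain ⟨t, ht1, ht2⟩ := ((ht.eventually_gt_atTop 0).and
    (Filter.eventually_gt_atTop (-c))).exists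
  refine ⟨-t, by linarith, ?_⟩
  rw [hP, eval_mul, eval_C, eval_comp, eval_neg, eval_X] at ht1
  exact ht1

theorem sign_prod {m : ℕ} (x : Fin m → ℝ) (hx : StrictAnti x) (i : Fin m) :
    0 < (-1 : ℝ) ^ (i : ℕ) * ∏ j ∈ Finset.univ.erase i, (x i - x j) := by
  have h1 : ∏ j ∈ Finset.univ.erase i, (x i - x j) =
      (∏ j ∈ Finset.univ.erase i, (if j < i then (-1 : ℝ) else 1)) *
        ∏ j ∈ Finset.univ.erase i, |x i - x j| := by
    rw [← Finset.prod_mul_distrib]
    refine Finset.prod_congr rfl fun j hj => ?_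
    have hne := Finset.ne_of_mem_erase hj
    rcases lt_or_gt_of_ne hne with h | h
    · rw [if_pos h, abs_of_neg (by have := hx h; linarith)]; ring
    · rw [if_neg (not_lt.2 h.le), abs_of_pos (by have := hx h; linarith)]; ring
  have h2 : ∏ j ∈ Finset.univ.erase i, (if j < i then (-1 : ℝ) else 1) = (-1) ^ (i : ℕ) := by
    rw [Finset.prod_ite, Finset.prod_const, Finset.prod_const_one, mul_one]
    congr 1
    have : (Finset.univ.erase i).filter (fun j => j < i) = Finset.Iio i := by
      ext j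
      simp only [Finset.mem_filter, Finset.mem_erase, Finset.mem_univ, Finset.mem_Iio, and_true]
      exact ⟨fun h => h.2, fun h => ⟨ne_of_lt h, h⟩⟩
    rw [this, Fin.card_Iio]
  rw [h1, h2, ← mul_assoc, ← mul_pow]
  norm_num
  refine Finset.prod_pos fun j hj => abs_pos.2 (sub_ne_zero.2 fun h => ?_)
  exact (Finset.ne_of_mem_erase hj) (hx.injective h).symm

theorem interlace_step {m : ℕ} (f g : ℝ[X]) (a : ℝ) (x : Fin m → ℝ) (ha : 0 < a)
    (hx : StrictAnti x) (hx0 : ∀ i, x i < 0) (hf : f = C a * ∏ i, (X - C (x i)))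
    (hd : g.natDegree ≤ m + 1) (hg : 0 < g.coeff (m + 1)) (h0 : 0 < g.eval 0)
    (hW : ∀ t, 0 < f.eval t * g.derivative.eval t - f.derivative.eval t * g.eval t) :
    ∃ y : Fin (m + 1) → ℝ, g = C (g.coeff (m + 1)) * ∏ i, (X - C (y i)) ∧ StrictAnti y ∧
      (∀ i, y i < 0) ∧ ∀ i : Fin m, x i < y i.castSucc ∧ y i.succ < x i := by
  -- sign of `g` at the roots of `f`
  have hs : ∀ i : Fin m, 0 < (-1 : ℝ) ^ ((i : ℕ) + 1) * g.eval (x i) := by
    intro i
    have hf2 : f = (X - C (x i)) * (C a * ∏ j ∈ Finset.univ.erase i, (X - C (x j))) := by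
      rw [hf, ← Finset.mul_prod_erase _ _ (Finset.mem_univ i)]; ring
    have hfe : f.eval (x i) = 0 := by rw [hf2]; simp
    have hfd : f.derivative.eval (x i) = a * ∏ j ∈ Finset.univ.erase i, (x i - x j) := by
      rw [hf2, derivative_mul]
      simp [eval_prod]
    have h1 := hW (x i)
    rw [hfe, hfd, zero_mul, zero_sub] at h1
    have h2 := sign_prod x hx i
    by_contra hcon
    push Not at hcon
    have h3 : 0 < ((-1 : ℝ) ^ (i : ℕ) * ∏ j ∈ Finset.univ.erase i, (x i - x j)) * a :=
      mul_pos h2 ha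
    have h4 := mul_nonpos_of_nonneg_of_nonpos h3.le hcon
    have h5 : ((-1 : ℝ) ^ (i : ℕ) * ∏ j ∈ Finset.univ.erase i, (x i - x j)) * a *
        ((-1 : ℝ) ^ ((i : ℕ) + 1) * g.eval (x i)) =
        -(a * ∏ j ∈ Finset.univ.erase i, (x i - x j)) * g.eval (x i) *
          ((-1 : ℝ) ^ (i : ℕ) * (-1) ^ (i : ℕ)) := by
      rw [pow_succ]; ring
    have h6 : ((-1 : ℝ) ^ (i : ℕ) * (-1) ^ (i : ℕ)) = 1 := by
      rw [← mul_pow]; norm_num
    rw [h5, h6] at h4
    linarith
  obtain ⟨b, hb, hbs⟩ := exists_neg g m hd hg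
    (if h : 0 < m then x ⟨m - 1, by omega⟩ else 0)
  set p : ℕ → ℝ := fun k => if k = 0 then 0 else if h : k - 1 < m then x ⟨k - 1, h⟩ else b with hp
  have hb2 : ∀ i : Fin m, b < x i := by
    intro i
    have hm : 0 < m := i.pos
    rw [dif_pos hm] at hb
    refine lt_of_lt_of_le hb (hx.antitone ?_)
    rw [Fin.le_def]
    have := i.2
    simp only
    omega
  have hb3 : b < 0 := by
    by_cases hm : 0 < m
    · exact lt_trans (hb2 ⟨0, hm⟩) (hx0 _)
    · rw [dif_neg hm] at hb; exact hb
  have hstep : ∀ k ≤ m, p (k + 1) < p k := by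
    intro k hk
    simp only [hp, Nat.add_sub_cancel, Nat.succ_ne_zero, if_false]
    by_cases hk0 : k = 0
    · subst hk0
      by_cases hm : 0 < m
      · rw [dif_pos hm, if_pos rfl]; exact hx0 _
      · rw [dif_neg hm, if_pos rfl]; exact hb3
    · rw [if_neg hk0, dif_pos (show k - 1 < m by omega)]
      by_cases hkm : k < m
      · rw [dif_pos hkm]; exact hx (by rw [Fin.lt_def]; simp only; omega)
      · rw [dif_neg hkm]; exact hb2 _
  have hsign : ∀ k ≤ m + 1, 0 < (-1 : ℝ) ^ k * g.eval (p k) := by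
    intro k hk
    simp only [hp]
    by_cases hk0 : k = 0
    · subst hk0; simpa using h0
    · rw [if_neg hk0]
      by_cases hkm : k - 1 < m
      · rw [dif_pos hkm]
        have := hs ⟨k - 1, hkm⟩
        simp only at this
        rwa [show k - 1 + 1 = k by omega] at this
      · rw [dif_neg hkm, show k = m + 1 by omega]
        exact hbs
  have hex : ∀ k : Fin (m + 1), ∃ y, p (k + 1) < y ∧ y < p k ∧ g.eval y = 0 := fun k =>
    root_between g k (hstep k (by omega)) (hsign k (by omega)) (hsign (k + 1) (by omega))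
  choose y hy1 hy2 hy3 using hex
  have hanti : ∀ k l : ℕ, k ≤ l → l ≤ m + 1 → p l ≤ p k := by
    intro k l hkl
    induction l, hkl using Nat.le_induction with
    | base => intro _; exact le_rfl
    | succ l hkl ih => intro h; exact (hstep l (by omega)).le.trans (ih (by omega))
  have hya : StrictAnti y := by
    intro k l hkl
    have h1 : (k : ℕ) + 1 ≤ l := hkl
    exact (hy2 l).trans_le ((hanti _ _ h1 (by omega)).trans (hy1 k).le)
  refine ⟨y, eq_prod_of_roots g hd y hya.injective hy3, hya, fun i => ?_, fun i => ⟨?_, ?_⟩⟩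
  · refine lt_of_lt_of_le (hy2 i) ?_
    have := hanti 0 i (Nat.zero_le _) (by omega)
    simpa [hp] using this
  · have h1 := hy1 i.castSucc
    simp only [hp, Fin.val_castSucc, Nat.add_sub_cancel, Nat.succ_ne_zero, if_false, dif_pos i.2]
      at h1
    exact h1
  · have h1 := hy2 i.succ
    simp only [hp, Fin.val_succ, Nat.add_sub_cancel, Nat.succ_ne_zero, if_false, dif_pos i.2]
      at h1
    exact h1

end Pool.Agent.Q281.Interl
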