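import Mathlib

set_option autoImplicit false

/-!
Permanents: Ryser's formula (copied from `Pool.Agent.H450R3.POT1`), evaluation over the integers
by depth first search, and comparison of bivariate generating functions by their value at one
large point.
-/

namespace Pool.Agent.Q281.Per

open Matrix Finset

/-- Ryser's formula for the permanent. -/
theorem ryser {ι R : Type} [Fintype ι] [DecidableEq ι] [CommRing R] (M : Matrix ι ι R) :
    M.permanent = ∑ T ∈ (univ : Finset ι).powerset,
      (-1) ^ (Fintype.card ι - T.card) * ∏ i, ∑ j ∈ T, M j i := by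
  have h1 : ∀ T : Finset ι, ∏ i, ∑ j ∈ T, M j i =
      ∑ g : ι → ι, if (∀ i, g i ∈ T) then ∏ i, M (g i) i else 0 := by
    intro T
    rw [Finset.prod_univ_sum, ← Finset.sum_filter]
    apply Finset.sum_congr
    · ext g; simp [Fintype.mem_piFinset]
    · intros; rfl
  simp_rw [h1, Finset.mul_sum]
  rw [Finset.sum_comm]
  have h2 : ∀ g : ι → ι, (∑ T ∈ (univ : Finset ι).powerset,
      (-1 : R) ^ (Fintype.card ι - T.card) * (if (∀ i, g i ∈ T) then ∏ i, M (g i) i else 0)) =
      if Function.Bijective g then ∏ i, M (g i) i else 0 := by
    intro g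
    have h3 : (∑ T ∈ (univ : Finset ι).powerset,
      (-1 : R) ^ (Fintype.card ι - T.card) * (if (∀ i, g i ∈ T) then ∏ i, M (g i) i else 0)) =
      (∑ T ∈ (univ.image g)ᶜ.powerset, (-1 : R) ^ T.card) * ∏ i, M (g i) i := by
      rw [Finset.sum_mul]
      symm
      rw [← Finset.sum_filter_add_sum_filter_not (univ : Finset ι).powerset (fun T => ∀ i, g i ∈ T)]
      rw [Finset.sum_eq_zero (s := Finset.filter (fun T => ¬ ∀ i, g i ∈ T) _) (by
        intro T hT
        rw [Finset.mem_filter] at hT
        rw [if_neg hT.2, mul_zero]), add_zero]
      refine Finset.sum_bij' (fun T _ => Tᶜ) (fun T _ => Tᶜ) ?_ ?_ ?_ ?_ ?_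
      · intro T hT
        simp only [Finset.mem_filter, Finset.mem_powerset, Finset.subset_univ, true_and]
        intro i
        rw [Finset.mem_powerset] at hT
        rw [Finset.mem_compl]
        intro hc
        have := hT hc
        rw [Finset.mem_compl] at this
        exact this (Finset.mem_image_of_mem g (Finset.mem_univ i))
      · intro T hT
        simp only [Finset.mem_filter, Finset.mem_powerset, Finset.subset_univ, true_and] at hT
        rw [Finset.mem_powerset]
        intro x hx
        rw [Finset.mem_compl] at hx ⊢
        intro hc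
        obtain ⟨i, _, rfl⟩ := Finset.mem_image.1 hc
        exact hx (hT i)
      · intro T _; exact compl_compl T
      · intro T _; exact compl_compl T
      · intro T hT
        have hmem : ∀ i, g i ∈ Tᶜ := by
          intro i
          rw [Finset.mem_powerset] at hT
          rw [Finset.mem_compl]
          intro hc
          have := hT hc
          rw [Finset.mem_compl] at this
          exact this (Finset.mem_image_of_mem g (Finset.mem_univ i))
        rw [if_pos hmem, Finset.card_compl]
        congr 2
        have := Finset.card_le_univ T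
        omega
    rw [h3]
    have h4 : (∑ T ∈ (univ.image g)ᶜ.powerset, (-1 : R) ^ T.card) =
        ((∑ T ∈ (univ.image g)ᶜ.powerset, (-1 : ℤ) ^ T.card : ℤ) : R) := by
      push_cast; rfl
    rw [h4, Finset.sum_powerset_neg_one_pow_card]
    by_cases hb : Function.Bijective g
    · have : (univ.image g)ᶜ = ∅ := by
        rw [Finset.image_univ_of_surjective hb.2, Finset.compl_univ]
      rw [if_pos this, if_pos hb]; simp
    · have : (univ.image g)ᶜ ≠ ∅ := by
        intro h5
        apply hb
        have hs : Function.Surjective g := by
          intro x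
          have : x ∈ univ.image g := by
            by_contra hx
            have : x ∈ (univ.image g)ᶜ := Finset.mem_compl.2 hx
            rw [h5] at this
            exact absurd this (Finset.notMem_empty x)
          obtain ⟨i, _, hi⟩ := Finset.mem_image.1 this
          exact ⟨i, hi⟩
        exact Finite.surjective_iff_bijective.1 hs
      rw [if_neg this, if_neg hb]; simp
  rw [Finset.sum_congr rfl (fun g _ => h2 g), ← Finset.sum_filter]
  unfold Matrix.permanent
  refine Finset.sum_bij' (fun σ _ => (σ : ι → ι)) (fun g hg => Equiv.ofBijective g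
    (Finset.mem_filter.1 hg).2) ?_ ?_ ?_ ?_ ?_
  · intro σ _; simp [σ.bijective]
  · intro g _; exact Finset.mem_univ _
  · intro σ _; ext i; rfl
  · intro g _; rfl
  · intro σ _; rfl

/-- Ryser's formula by depth first search on the columns. -/
def ryd : List (List ℤ) → List ℤ → ℤ
  | [], u => u.prod
  | c :: cs, u => ryd cs (List.zipWith (· + ·) u c) - ryd cs u

theorem ryd_eq {n : ℕ} (M : Matrix (Fin n) (Fin n) ℤ) :
    ∀ (L : List (Fin n)) (u : Fin n → ℤ), L.Nodup →
      ryd (L.map (fun j => (List.finRange n).map (fun i => M j i))) ((List.finRange n).map u) =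
      ∑ T ∈ L.toFinset.powerset, (-1) ^ (L.length - T.card) * ∏ i, (u i + ∑ j ∈ T, M j i) := by
  intro L
  induction L with
  | nil =>
    intro u _
    simp [ryd, Fin.prod_univ_def]
  | cons j L ih =>
    intro u hnd
    have hj : j ∉ L.toFinset := by
      rw [List.mem_toFinset]; exact (List.nodup_cons.1 hnd).1
    have hnd' := (List.nodup_cons.1 hnd).2
    rw [List.toFinset_cons, Finset.sum_powerset_insert hj]
    simp only [List.map_cons, ryd]
    have hz : List.zipWith (· + ·) ((List.finRange n).map u)
        ((List.finRange n).map (fun i => M j i)) = (List.finRange n).map (fun i => u i + M j i) := by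
      rw [List.zipWith_map, List.zipWith_self]
    rw [hz, ih _ hnd', ih _ hnd', sub_eq_add_neg, add_comm]
    congr 1
    · rw [← Finset.sum_neg_distrib]
      apply Finset.sum_congr rfl
      intro T hT
      have hc : T.card ≤ L.length := by
        have := card_le_card (mem_powerset.1 hT)
        rwa [List.toFinset_card_of_nodup hnd'] at this
      rw [List.length_cons, show L.length + 1 - T.card = (L.length - T.card) + 1 by omega, pow_succ]
      ring
    · apply Finset.sum_congr rfl
      intro T hT
      have hjT : j ∉ T := fun h => hj (mem_powerset.1 hT h)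
      rw [card_insert_of_notMem hjT, List.length_cons,
        show L.length + 1 - (T.card + 1) = L.length - T.card by omega]
      congr 1
      refine Finset.prod_congr rfl fun i _ => ?_
      rw [sum_insert hjT]
      ring

theorem permanent_eq_ryd {n : ℕ} (M : Matrix (Fin n) (Fin n) ℤ) :
    M.permanent = ryd ((List.finRange n).map (fun j => (List.finRange n).map (fun i => M j i)))
      ((List.finRange n).map (fun _ => 0)) := by
  rw [ryd_eq M _ _ (List.nodup_finRange n), ryser M]
  rw [List.toFinset_finRange, List.length_finRange, Fintype.card_fin]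
  simp

theorem digits_unique (B : ℕ) : ∀ (N : ℕ) (c c' : ℕ → ℕ), (∀ k, c k < B) → (∀ k, c' k < B) →
    ∑ k ∈ range N, c k * B ^ k = ∑ k ∈ range N, c' k * B ^ k → ∀ k < N, c k = c' k
  | 0, _, _, _, _, _ => fun k hk => absurd hk (by omega)
  | N + 1, c, c', h, h', he => by
    have hB : 0 < B := lt_of_le_of_lt (Nat.zero_le _) (h 0)
    have e1 : ∀ d : ℕ → ℕ, ∑ k ∈ range (N + 1), d k * B ^ k =
        d 0 + B * ∑ k ∈ range N, d (k + 1) * B ^ k := by
      intro d
      rw [Finset.sum_range_succ', mul_sum, add_comm]
      congr 1
      · simp
      · refine Finset.sum_congr rfl fun k _ => ?_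
        rw [pow_succ]; ring
    rw [e1, e1] at he
    have h0 : c 0 = c' 0 := by
      have h1 := congrArg (· % B) he
      simp only [Nat.add_mul_mod_self_left] at h1
      rwa [Nat.mod_eq_of_lt (h 0), Nat.mod_eq_of_lt (h' 0)] at h1
    have h2 : ∑ k ∈ range N, c (k + 1) * B ^ k = ∑ k ∈ range N, c' (k + 1) * B ^ k := by
      rw [h0] at he
      exact Nat.eq_of_mul_eq_mul_left hB (Nat.add_left_cancel he)
    have h3 := digits_unique B N (fun k => c (k + 1)) (fun k => c' (k + 1)) (fun k => h _)
      (fun k => h' _) h2
    intro k hk
    rcases k with _ | k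
    · exact h0
    · exact h3 k (by omega)

end Pool.Agent.Q281.Per
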