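import Mathlib

set_option autoImplicit false

/-!
# Real-rooted polynomials: factorisation and the lowest Newton inequality
-/

namespace Pool.Agent.Q281.RealRoot

open Polynomial

/-- a real polynomial all of whose complex roots are real is a product of real linear factors -/
theorem exists_roots (q : ℝ[X]) (h : ∀ z : ℂ, aeval z q = 0 → z.im = 0) :
    ∃ t : Multiset ℝ, q = C q.leadingCoeff * (t.map (fun r => X - C r)).prod := by
  rcases eq_or_ne q 0 with rfl | hq
  · exact ⟨0, by simp⟩
  set s := (q.map (algebraMap ℝ ℂ)).roots with hs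
  refine ⟨s.map Complex.re, ?_⟩
  have hinj : Function.Injective (algebraMap ℝ ℂ) := Complex.ofReal_injective
  apply Polynomial.map_injective (algebraMap ℝ ℂ) hinj
  have h1 := (IsAlgClosed.splits (q.map (algebraMap ℝ ℂ))).eq_prod_roots
  rw [← hs] at h1
  have h2 : (q.map (algebraMap ℝ ℂ)).leadingCoeff = algebraMap ℝ ℂ q.leadingCoeff :=
    Polynomial.leadingCoeff_map_of_injective hinj q
  rw [h2] at h1
  conv_lhs => rw [h1]
  rw [Polynomial.map_mul, Polynomial.map_C, Polynomial.map_multiset_prod, Multiset.map_map,
    Multiset.map_map]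
  congr 2
  refine Multiset.map_congr rfl fun z hz => ?_
  have hz0 : aeval z q = 0 := by
    have := Polynomial.isRoot_of_mem_roots (hs ▸ hz)
    rwa [Polynomial.IsRoot, Polynomial.eval_map_algebraMap] at this
  have him := h z hz0
  have hre : ((z.re : ℝ) : ℂ) = z := by
    apply Complex.ext
    · simp
    · simp [him]
  simp only [Function.comp, Polynomial.map_sub, Polynomial.map_X, Polynomial.map_C]
  rw [show (algebraMap ℝ ℂ) z.re = ((z.re : ℝ) : ℂ) from rfl, hre]

/-- Newton's inequality for the three lowest coefficients of a product of real linear factors -/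
theorem newton_prod (t : Multiset ℝ) :
    2 * (Multiset.card t : ℝ) * ((t.map (fun r => X - C r)).prod.coeff 0) *
      ((t.map (fun r => X - C r)).prod.coeff 2) ≤
      ((Multiset.card t : ℝ) - 1) * ((t.map (fun r => X - C r)).prod.coeff 1) ^ 2 ∨ t = 0 := by
  induction t using Multiset.induction_on with
  | empty => exact Or.inr rfl
  | cons r t ih =>
    left
    simp only [Multiset.map_cons, Multiset.prod_cons, Multiset.card_cons]
    set P := (t.map (fun r => X - C r)).prod with hP
    have e0 : ((X - C r) * P).coeff 0 = - r * P.coeff 0 := by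
      rw [sub_mul, coeff_sub, Polynomial.mul_coeff_zero, coeff_C_mul]; simp
    have e1 : ((X - C r) * P).coeff 1 = P.coeff 0 - r * P.coeff 1 := by
      rw [sub_mul, coeff_sub, coeff_C_mul, Polynomial.coeff_X_mul]
    have e2 : ((X - C r) * P).coeff 2 = P.coeff 1 - r * P.coeff 2 := by
      rw [sub_mul, coeff_sub, coeff_C_mul, Polynomial.coeff_X_mul]
    rw [e0, e1, e2]
    rcases ih with ih | ih
    · rcases Nat.eq_zero_or_pos (Multiset.card t) with h0 | h0
      · rw [Multiset.card_eq_zero] at h0
        subst h0
        simp [hP, coeff_one]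
      · have hn : (1 : ℝ) ≤ (Multiset.card t : ℝ) := by exact_mod_cast h0
        push_cast
        set n : ℝ := (Multiset.card t : ℝ)
        set a := P.coeff 0
        set b := P.coeff 1
        set c := P.coeff 2
        have key : 0 ≤ n * ((n + 1 - 1) * (a - r * b) ^ 2 - 2 * (n + 1) * (-r * a) * (b - r * c)) := by
          have e : n * ((n + 1 - 1) * (a - r * b) ^ 2 - 2 * (n + 1) * (-r * a) * (b - r * c)) =
              (n * a + r * b) ^ 2 + r ^ 2 * (n + 1) * ((n - 1) * b ^ 2 - 2 * n * a * c) := by ring
          rw [e]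
          have h1 : 0 ≤ (n - 1) * b ^ 2 - 2 * n * a * c := by linarith
          positivity
        have h2 : 0 ≤ (n + 1 - 1) * (a - r * b) ^ 2 - 2 * (n + 1) * (-r * a) * (b - r * c) := by
          by_contra hcon
          push Not at hcon
          have := mul_neg_of_pos_of_neg (by linarith : (0:ℝ) < n) hcon
          linarith
        linarith
    · subst ih
      simp [hP, coeff_one]

/-- **Newton's inequality** for the three lowest coefficients of a real polynomial with only
real roots. -/
theorem newton_low (q : ℝ[X]) (h : ∀ z : ℂ, aeval z q = 0 → z.im = 0) (hd : 1 ≤ q.natDegree) :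
    2 * (q.natDegree : ℝ) * q.coeff 0 * q.coeff 2 ≤ ((q.natDegree : ℝ) - 1) * q.coeff 1 ^ 2 := by
  obtain ⟨t, ht⟩ := exists_roots q h
  have hq : q ≠ 0 := by
    rintro rfl
    simp at hd
  have hl : q.leadingCoeff ≠ 0 := leadingCoeff_ne_zero.2 hq
  have hcard : q.natDegree = Multiset.card t := by
    conv_lhs => rw [ht]
    rw [natDegree_C_mul hl, natDegree_multiset_prod_X_sub_C_eq_card]
  have hc : ∀ i, q.coeff i = q.leadingCoeff * (t.map (fun r => X - C r)).prod.coeff i := by
    intro i
    conv_lhs => rw [ht]
    rw [coeff_C_mul]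
  rcases newton_prod t with h1 | h1
  · rw [hcard, hc 0, hc 1, hc 2]
    have h2 : 0 ≤ q.leadingCoeff ^ 2 := sq_nonneg _
    have h3 := mul_le_mul_of_nonneg_left h1 h2
    nlinarith [h3]
  · subst h1
    simp at hcard
    omega

end Pool.Agent.Q281.RealRoot
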